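import Pool.Agent.helper35.LV.Spec

set_option autoImplicit false

namespace Pool.Agent.LV

open Matrix Pool.Agent.H48SL Pool.Agent.UG

theorem FCQ_sq {n : ℕ} (y f : Fin n → ℚ) (h : f ⬝ᵥ y = 0) (m : ℕ) :
    ((1 : MQ n) + vecMulVec y f) ^ m = 1 + (m : ℚ) • vecMulVec y f := by
  have h0 : vecMulVec y f * vecMulVec y f = 0 := by
    rw [vecMulVec_mul_vecMulVec, h]
    simp
  induction m with
  | zero => simp
  | succ k ih =>
    rw [pow_succ, ih, Matrix.add_mul, Matrix.mul_add, Matrix.mul_one, Matrix.mul_add, Matrix.mul_one, Matrix.smul_mul, h0, smul_zero, add_zero]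
    push_cast
    rw [add_smul, one_smul, one_mul, add_assoc, add_comm (vecMulVec y f)]

theorem FCQ_int {n : ℕ} (z : SLZ n) (y f : Fin n → ℚ) (h : f ⬝ᵥ y = 0) (hz : qg z = 1 + vecMulVec y f) :
    ∃ (m : ℕ) (e φ : Fin n → ℤ) (c d : ℚ), 1 ≤ m ∧ c ≠ 0 ∧ d ≠ 0 ∧ castV e = c • y ∧ castV φ = d • f ∧
      qg (z ^ m) = 1 + vecMulVec (castV e) (castV φ) := by
  obtain ⟨N₁, e, hN₁, he⟩ := clear_denom y
  obtain ⟨N₂, φ, hN₂, hφ⟩ := clear_denom f
  have hc1 : (N₁ : ℚ) ≠ 0 := by exact_mod_cast hN₁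
  have hc2 : (N₂ : ℚ) ≠ 0 := by exact_mod_cast hN₂
  rcases lt_or_gt_of_ne (mul_ne_zero hN₁ hN₂) with hneg | hpos
  · refine ⟨(-(N₁ * N₂)).toNat, -e, φ, -N₁, N₂, by omega, neg_ne_zero.2 hc1, hc2, ?_, hφ, ?_⟩
    · have : castV (-e) = -castV e := by ext i; simp [castV]
      rw [this, he, neg_smul]
    · rw [qg_pow, hz, FCQ_sq y f h]
      have h1 : (((-(N₁ * N₂)).toNat : ℕ) : ℚ) = -(N₁ * N₂) := by
        have : (((-(N₁ * N₂)).toNat : ℕ) : ℤ) = -(N₁ * N₂) := Int.toNat_of_nonneg (by omega)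
        exact_mod_cast this
      have h2 : castV (-e) = -castV e := by ext i; simp [castV]
      rw [h1, h2, he, hφ]
      ext i j
      simp only [Matrix.add_apply, Matrix.smul_apply, vecMulVec_apply, Pi.neg_apply, Pi.smul_apply, smul_eq_mul]
      ring
  · refine ⟨(N₁ * N₂).toNat, e, φ, N₁, N₂, by omega, hc1, hc2, he, hφ, ?_⟩
    rw [qg_pow, hz, FCQ_sq y f h]
    have h1 : (((N₁ * N₂).toNat : ℕ) : ℚ) = N₁ * N₂ := by
      have : (((N₁ * N₂).toNat : ℕ) : ℤ) = N₁ * N₂ := Int.toNat_of_nonneg (by omega)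
      exact_mod_cast this
    rw [h1, he, hφ]
    ext i j
    simp only [Matrix.add_apply, Matrix.smul_apply, vecMulVec_apply, Pi.smul_apply, smul_eq_mul]
    ring

theorem FCQ_dot {n : ℕ} (v w : Fin n → ℤ) : ((v ⬝ᵥ w : ℤ) : ℚ) = castV v ⬝ᵥ castV w := by
  simp [dotProduct, castV]

theorem FCQ_exd {n : ℕ} {f : Fin n → ℚ} (hf : f ≠ 0) : ∃ u : Fin n → ℚ, f ⬝ᵥ u ≠ 0 := by
  obtain ⟨i, hi⟩ := Function.ne_iff.1 hf
  exact ⟨Pi.single i 1, by simpa using hi⟩

theorem FCQ : FCQ_stmt := by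
  intro n hn H hD z hz g hg y f hy hf hfy hqz hsm halt
  obtain ⟨m, e, φ, c, d, hm, hc, hd, he, hφ, hq⟩ := FCQ_int z y f hfy hqz
  have hdot : φ ⬝ᵥ e = 0 := by
    have h1 : ((φ ⬝ᵥ e : ℤ) : ℚ) = 0 := by
      rw [FCQ_dot, he, hφ, smul_dotProduct, dotProduct_smul, hfy]
      simp
    exact_mod_cast h1
  have hzt : z ^ m = tv e φ := qg_inj (by rw [hq, qg_tv hdot])
  have hce : castV e ≠ 0 := by rw [he]; exact smul_ne_zero hc hy
  have hcφ : castV φ ≠ 0 := by rw [hφ]; exact smul_ne_zero hd hf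
  have hz1 : z ^ m ≠ 1 := by
    intro h
    rw [h, qg_one] at hq
    have h1 : vecMulVec (castV e) (castV φ) = 0 := by
      have := hq.symm
      rwa [add_eq_left] at this
    obtain ⟨i, hi⟩ := Function.ne_iff.1 hce
    obtain ⟨j, hj⟩ := Function.ne_iff.1 hcφ
    have h2 := congrFun (congrFun h1 i) j
    rw [vecMulVec_apply] at h2
    exact (mul_ne_zero hi hj) h2
  refine (final_coef (by simpa using hn) H e φ (z ^ m) g (H.pow_mem hz m) hg hz1 (by rw [hzt, tv_coe hdot]) ?_ ?_).1 hD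
  · have h1 : φ ⬝ᵥ ((g : Matrix (Fin n) (Fin n) ℤ) *ᵥ e) = 0 := by
      have h2 : ((φ ⬝ᵥ ((g : Matrix (Fin n) (Fin n) ℤ) *ᵥ e) : ℤ) : ℚ) = 0 := by
        rw [FCQ_dot, ← qg_mulVec_castV, he, hφ, mulVec_smul, smul_dotProduct, dotProduct_smul, hsm]
        simp
      exact_mod_cast h2
    rw [h1]
    norm_num
  · rcases halt with h | h
    · left
      obtain ⟨u, hu⟩ := FCQ_exd hf
      have key : ∀ s : ℚ, qg g * (vecMulVec y f) = s • (vecMulVec y f * qg g) → False := by
        intro s hs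
        have h1 := congrArg (fun X : MQ n => X *ᵥ u) hs
        beta_reduce at h1
        rw [smul_mulVec, ← mulVec_mulVec, ← mulVec_mulVec, vecMulVec_mulVec, vecMulVec_mulVec] at h1
        refine h ((f ⬝ᵥ u)⁻¹ * (s * (f ⬝ᵥ (qg g *ᵥ u)))) ?_
        have h2 : (f ⬝ᵥ u) • (qg g *ᵥ y) = (s * (f ⬝ᵥ (qg g *ᵥ u))) • y := by
          rw [← mulVec_smul]
          have e1 : ∀ (a : ℚ) (v : Fin n → ℚ), (MulOpposite.op a) • v = a • v := fun a v => by
            ext i
            simp [mul_comm]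
          rw [e1, e1] at h1
          rw [h1, smul_smul]
        rw [mul_smul, ← h2, smul_smul, inv_mul_cancel₀ hu, one_smul]
      have hE : vecMulVec (castV e) (castV φ) = (c * d) • vecMulVec y f := by
        ext i j
        rw [he, hφ]
        simp only [Matrix.smul_apply, vecMulVec_apply, Pi.smul_apply, smul_eq_mul]
        ring
      have hcd : c * d ≠ 0 := mul_ne_zero hc hd
      constructor
      · intro hh
        have h1 : g * z ^ m = z ^ m * g := by
          rw [← mul_inv_eq_iff_eq_mul]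
          exact hh
        have h2 := congrArg qg h1
        rw [qg_mul, qg_mul, hq, Matrix.mul_add, Matrix.add_mul, Matrix.mul_one, Matrix.one_mul, add_right_inj, hE, Matrix.mul_smul,
          Matrix.smul_mul] at h2
        refine key 1 ?_
        rw [one_smul]
        exact smul_right_injective _ hcd h2
      · intro hh
        have h1 : z ^ m * g * z ^ m = g := by
          have : g * z ^ m = (z ^ m)⁻¹ * g := by
            rw [← mul_inv_eq_iff_eq_mul]
            exact hh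
          rw [mul_assoc, this, mul_inv_cancel_left]
        have h3 : g * z ^ m = (z ^ m)⁻¹ * g := by
          rw [← mul_inv_eq_iff_eq_mul]
          exact hh
        have hinv : qg (z ^ m)⁻¹ = 1 - (c * d) • vecMulVec y f := by
          have h4 : qg (z ^ m) * (1 - (c * d) • vecMulVec y f) = 1 := by
            rw [hq, hE, Matrix.mul_sub, Matrix.mul_one, Matrix.add_mul, Matrix.one_mul, Matrix.smul_mul, Matrix.mul_smul,
              vecMulVec_mul_vecMulVec, hfy]
            simp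
          have h5 := congrArg (fun X : MQ n => qg (z ^ m)⁻¹ * X) h4
          beta_reduce at h5
          rw [← Matrix.mul_assoc, qg_inv_mul, Matrix.one_mul, Matrix.mul_one] at h5
          exact h5.symm
        have h2 := congrArg qg h3
        rw [qg_mul, qg_mul, hq, hinv, Matrix.mul_add, Matrix.sub_mul, Matrix.mul_one, Matrix.one_mul, sub_eq_add_neg, add_right_inj, hE,
          Matrix.mul_smul, Matrix.smul_mul, ← smul_neg] at h2
        refine key (-1) ?_
        rw [neg_smul, one_smul]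
        exact smul_right_injective _ hcd h2
    · right
      intro k hk m' hh
      refine h k hk (m * m') ?_
      rw [hh, ← zpow_natCast, ← _root_.zpow_mul]

end Pool.Agent.LV
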